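import Pool.Agent.helper78.HFN.Spec

/-!
# Row hfn:INF (MP_3221a1_ag): curves are infinite
-/

set_option autoImplicit false

namespace Pool.Agent.HFN

open Polynomial Module

noncomputable section

theorem INF : INF_stmt := by
  intro E hE
  by_cases hd : E.natDegree = 0
  · obtain ⟨p, rfl⟩ : ∃ p : ℂ[X], E = C p := ⟨E.coeff 0, eq_C_of_natDegree_eq_zero hd⟩
    have hp : p.degree ≠ 0 := by
      intro h
      apply hE.not_isUnit
      rw [isUnit_C]
      exact isUnit_iff_degree_eq_zero.2 h
    obtain ⟨x₀, hx₀⟩ := IsAlgClosed.exists_root p hp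
    refine Set.infinite_of_injective_forall_mem (f := fun y : ℂ => (x₀, y)) ?_ ?_
    · intro y y' h
      exact (Prod.ext_iff.1 h).2
    · intro y
      show ev (x₀, y) (C p) = 0
      rw [ev_C]
      exact hx₀
  · intro hfin
    have hl : E.leadingCoeff ≠ 0 := leadingCoeff_ne_zero.2 hE.ne_zero
    have h1 : {c : ℂ | E.leadingCoeff.eval c = 0}.Finite := by
      refine (E.leadingCoeff.roots.toFinset.finite_toSet).subset ?_
      intro c hc
      rw [Finset.mem_coe, Multiset.mem_toFinset, mem_roots hl]
      exact hc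
    have h2 : ({c : ℂ | E.leadingCoeff.eval c = 0}ᶜ : Set ℂ) ⊆ Prod.fst '' {z : ℂ × ℂ | ev z E = 0} := by
      intro c hc
      have hc' : (evalRingHom c) E.leadingCoeff ≠ 0 := hc
      have hdeg : (E.map (evalRingHom c)).degree ≠ 0 := by
        rw [degree_map_eq_of_leadingCoeff_ne_zero _ hc', degree_eq_natDegree hE.ne_zero]
        exact_mod_cast hd
      obtain ⟨y, hy⟩ := IsAlgClosed.exists_root _ hdeg
      refine ⟨(c, y), ?_, rfl⟩
      show evalEval c y E = 0
      rw [← map_evalRingHom_eval]
      exact hy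
    exact h1.infinite_compl ((hfin.image _).subset h2)

end

end Pool.Agent.HFN
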